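import Pool.Agent.Work.MP_f6469e_gt.RFin

/-!
Compact Coxeter polytopes with rational cyclic products of the Gram matrix (quasi-arithmetic with ground field `ℚ`):
the dimension is at most 16, and every example of dimension at least 4 gives an example of dimension 4 or 5 or a simply
laced example of dimension 6, ..., 12.
-/

set_option autoImplicit false

namespace Pool.Agent.Results.MP_f6469e_gt.FiniteReduction

open Pool.Agent.Work.MP_f6469e_gt

theorem descent (n : ℕ) : 4 ≤ n → ∀ (N : ℕ) (e : Fin N → (Fin (n + 1) → ℝ)), CoxPoly n N e →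
    RatCyc n N e → ∃ (m N' : ℕ) (e' : Fin N' → (Fin (m + 1) → ℝ)), m ≤ n ∧ m % 2 = n % 2 ∧
      CoxPoly m N' e' ∧ RatCyc m N' e' ∧
      (m = 4 ∨ m = 5 ∨ (6 ≤ m ∧ m ≤ 12 ∧ SimplyLaced m N' e')) := by
  induction n using Nat.strong_induction_on with
  | _ n ih =>
    intro hn N e h hr
    by_cases h6 : n < 6
    · refine ⟨n, N, e, le_refl _, rfl, h, hr, ?_⟩
      omega
    · push Not at h6
      have hL := lab_of_rat (by omega) h hr
      by_cases hex : ∃ i j, i ≠ j ∧
          (L n (e i) (e j) = -(√2 / 2) ∨ L n (e i) (e j) = -(√3 / 2))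
      · obtain ⟨i, j, hij, h46⟩ := hex
        obtain ⟨k, rfl⟩ : ∃ k, n = k + 2 := ⟨n - 2, by omega⟩
        obtain ⟨N', e', h', hr'⟩ := face h hr hij h46
        obtain ⟨m, N'', e'', hm, hpar, hc, hrc, hcase⟩ := ih k (by omega) (by omega) N' e' h' hr'
        exact ⟨m, N'', e'', by omega, by omega, hc, hrc, hcase⟩
      · have hs : SimplyLaced n N e := by
          intro i j hij
          rcases hL.lab i j hij with h1 | h1 | h1 | h1 | h1
          · exact Or.inl h1
          · exact Or.inr (Or.inl h1)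
          · exact absurd ⟨i, j, hij, Or.inl h1⟩ hex
          · exact absurd ⟨i, j, hij, Or.inr h1⟩ hex
          · exact Or.inr (Or.inr h1.le)
        refine ⟨n, N, e, le_refl _, rfl, h, hr, Or.inr (Or.inr ⟨h6, ?_, hs⟩)⟩
        by_contra h12
        exact simply_bound (by omega) h hs

theorem result {n : ℕ} (hn : 4 ≤ n) {N : ℕ} (e : Fin N → (Fin (n + 1) → ℝ)) (h : CoxPoly n N e)
    (hr : RatCyc n N e) :
    n ≤ 16 ∧ ∃ (m N' : ℕ) (e' : Fin N' → (Fin (m + 1) → ℝ)), m ≤ n ∧ m % 2 = n % 2 ∧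
      CoxPoly m N' e' ∧ RatCyc m N' e' ∧
      (m = 4 ∨ m = 5 ∨ (6 ≤ m ∧ m ≤ 12 ∧ SimplyLaced m N' e')) := by
  refine ⟨?_, descent n hn N e h hr⟩
  by_contra h16
  exact rat_bound (by omega) h hr

end Pool.Agent.Results.MP_f6469e_gt.FiniteReduction
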