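import Pool.Agent.Work.MP_f6469e_gt.Mir.Main
import Pool.Agent.Work.MP_f6469e_gt.Mir.Coc

/-!
# MP_f6469e_gt: compact quasi-arithmetic polytopes over `ℚ` are not glued from arithmetic pieces
-/

set_option autoImplicit false

namespace Pool.Agent.Results.MP_f6469e_gt.GluingBarrier

open Pool.Agent.Work.MP_f6469e_gt Pool.Agent.Work.MP_f6469e_gt.Mir

/-- Let `Λ` be a lattice in `ℝ^(n+1)`, `n ≥ 4`, on which the Lorentz form `L n` is integral.
(1) A region of hyperbolic space bounded by hyperplanes which are rational for `Λ` (with normal vectors in `Λ` of bounded norm), pairwise orthogonal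
or disjoint, without `n - 2` mutually orthogonal ones, has a cusp of `Λ` on its ideal boundary.
(2) No set `Γ` of isometries which map `Λ` into itself acts cocompactly on such a region: for every compact set `K` of hyperbolic space some point of the
region is not mapped into `K` by them.
(3) If a polytope with unit normals `e i` is compact, the reflections in the facets `i ∉ B` preserve `Λ`, and the facets `i ∈ B` are rational
for `Λ` and orthogonal to or disjoint from all other facets, then there are `n - 2` mutually orthogonal facets in `B`. -/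
theorem result {n : ℕ} (hn : 4 ≤ n) {Λ : AddSubgroup (Fin (n + 1) → ℝ)} (hΛ : IntLat n Λ) :
    (∀ (W : Set (Fin (n + 1) → ℝ)) (C : ℝ),
      (∀ v ∈ W, v ∈ Λ ∧ 0 < L n v v ∧ L n v v ≤ C) →
      (∀ v ∈ W, ∀ w ∈ W, v ≠ w →
        L n v w = 0 ∨ (L n v w < 0 ∧ L n v v * L n w w ≤ L n v w ^ 2)) →
      (∃ x : Fin (n + 1) → ℝ, 0 < x 0 ∧ L n x x < 0 ∧ ∀ v ∈ W, L n x v < 0) →
      (∀ T : Finset (Fin (n + 1) → ℝ), (T : Set (Fin (n + 1) → ℝ)) ⊆ W →
        (∀ v ∈ T, ∀ w ∈ T, v ≠ w → L n v w = 0) → T.card < n - 2) →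
      (∃ u ∈ Λ, 0 < u 0 ∧ L n u u = 0 ∧ ∀ v ∈ W, L n u v ≤ 0) ∧
      ∀ K : Set (Fin (n + 1) → ℝ), IsCompact K → (∀ x ∈ K, 0 < x 0 ∧ L n x x = -1) →
        ∃ x : Fin (n + 1) → ℝ, 0 < x 0 ∧ L n x x = -1 ∧ (∀ v ∈ W, L n x v ≤ 0) ∧
          ∀ g : (Fin (n + 1) → ℝ) →ₗ[ℝ] (Fin (n + 1) → ℝ),
            (∀ y z, L n (g y) (g z) = L n y z) → (∀ y ∈ Λ, g y ∈ Λ) → g x ∉ K) ∧
    (∀ (N : ℕ) (e : Fin N → (Fin (n + 1) → ℝ)) (B : Finset (Fin N)),
      (∀ i, L n (e i) (e i) = 1) →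
      (∃ x : Fin (n + 1) → ℝ, 0 < x 0 ∧ L n x x = -1 ∧ ∀ i, L n x (e i) < 0) →
      IsCompact {x : Fin (n + 1) → ℝ | 0 < x 0 ∧ L n x x = -1 ∧ ∀ i, L n x (e i) ≤ 0} →
      (∀ i ∈ B, ∃ c : ℝ, 0 < c ∧ c • e i ∈ Λ) →
      (∀ i, i ∉ B → ∀ x ∈ Λ, x - (2 * L n x (e i)) • e i ∈ Λ) →
      (∀ i ∈ B, ∀ j, j ≠ i → L n (e i) (e j) = 0 ∨ L n (e i) (e j) ≤ -1) →
      ∃ T ⊆ B, T.card = n - 2 ∧ ∀ i ∈ T, ∀ j ∈ T, i ≠ j → L n (e i) (e j) = 0) :=
  ⟨fun W _ hW hd hx hT => ⟨region hn hΛ W hW hd hx hT,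
      fun _ hK hK1 => no_cocompact hn hΛ W hW hd hx hT hK hK1⟩,
    fun _ e B hunit hin hc hrat hA hB => polytope hn e hunit hin hc hΛ B hrat hA hB⟩

end Pool.Agent.Results.MP_f6469e_gt.GluingBarrier
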